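import Mathlib
import Pool.Agent.H888R2.KT.Defs
import Pool.Agent.H888R2.KT.N2
import Pool.Agent.H888R2.KT.N8
import Pool.Agent.H888R2.KT.N9a
import Pool.Agent.H888R2.KT.N9
import Pool.Agent.W586.SK.Stm2

set_option autoImplicit false

namespace Pool.Agent.W124.SX

open MeasureTheory Set Matrix Pool.Agent.H888R2.KC Pool.Agent.H888R2.KT Pool.Agent.H888R2.KT.N9x
open scoped ENNReal InnerProductSpace
open Pool.Agent.H212R2.KLS (mu Bdd ev gr)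
open Pool.Agent.W586.SX (S_ITER)

theorem iter : S_ITER := by
  intro κ _ ρ hρ q e he K hK hT Θ hΘ S hS hS2 u hu hu1
  have hΘ0 : 0 < Θ := lt_of_lt_of_le hK hΘ
  obtain ⟨R, hR0, hR⟩ : ∃ R : ℝ, 0 < R ∧ ∀ x, R < ‖x‖ → ρ x = 0 := by
    obtain ⟨R₀, hR₀⟩ := hρ.bdd
    exact ⟨max R₀ 1, lt_of_lt_of_le one_pos (le_max_right _ _), fun x hx =>
      hR₀ x (lt_of_le_of_lt (le_max_left _ _) hx)⟩
  -- contraction of the Dirichlet form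
  have hD : ∀ u ∈ S, ContDiff ℝ 1 u → ContDiff ℝ 2 (gs Θ (pst Θ ρ u)) ∧
      2 * ∫ x, ‖fderiv ℝ (gs Θ (pst Θ ρ u)) x‖ ^ 2 ∂(mu ρ) ≤
        ∫ x, ‖fderiv ℝ u x‖ ^ 2 ∂(mu ρ) := by
    intro u hu hu1
    obtain ⟨h1, h2⟩ := key hρ e he K hK hT Θ hΘ0 u hu1
    refine ⟨h1, le_trans ?_ h2⟩
    have h1' : ContDiff ℝ 1 (gs Θ (pst Θ ρ u)) := h1.of_le (by norm_num)
    have i0 : Integrable (fun x => ‖fderiv ℝ (gs Θ (pst Θ ρ u)) x‖ ^ 2) (mu ρ) :=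
      int_cont hρ (grad_cont h1')
    have i1 : Integrable (fun x => Θ * hs (gs Θ (pst Θ ρ u)) x) (mu ρ) :=
      int_cont hρ (continuous_const.mul (hs_cont h1))
    have i2' : Integrable (fun x => ∑ j, (fderiv ℝ (gs Θ (pst Θ ρ u)) x (e j)) ^ 2) (mu ρ) :=
      int_cont hρ (continuous_finset_sum _ fun j _ => (dir_cont h1' (e j)).pow 2)
    have i2 : Integrable (fun x => Θ / K * ∑ j, (fderiv ℝ (gs Θ (pst Θ ρ u)) x (e j)) ^ 2)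
      (mu ρ) := i2'.const_mul _
    have e1 : ∫ x, (‖fderiv ℝ (gs Θ (pst Θ ρ u)) x‖ ^ 2 + Θ * hs (gs Θ (pst Θ ρ u)) x +
        Θ / K * ∑ j, (fderiv ℝ (gs Θ (pst Θ ρ u)) x (e j)) ^ 2) ∂(mu ρ) =
        ∫ x, ‖fderiv ℝ (gs Θ (pst Θ ρ u)) x‖ ^ 2 ∂(mu ρ) +
          Θ * ∫ x, hs (gs Θ (pst Θ ρ u)) x ∂(mu ρ) +
          Θ / K * ∫ x, ∑ j, (fderiv ℝ (gs Θ (pst Θ ρ u)) x (e j)) ^ 2 ∂(mu ρ) := by
      have a1 := integral_add (i0.add i1) i2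
      have a2 := integral_add i0 i1
      simp only [Pi.add_apply] at a1 a2
      rw [a1, a2, integral_const_mul, integral_const_mul]
    have e2 : ∫ x, (‖fderiv ℝ (gs Θ (pst Θ ρ u)) x‖ ^ 2 -
        ∑ j, (fderiv ℝ (gs Θ (pst Θ ρ u)) x (e j)) ^ 2) ∂(mu ρ) =
        ∫ x, ‖fderiv ℝ (gs Θ (pst Θ ρ u)) x‖ ^ 2 ∂(mu ρ) -
          ∫ x, ∑ j, (fderiv ℝ (gs Θ (pst Θ ρ u)) x (e j)) ^ 2 ∂(mu ρ) := by
      have a1 := integral_sub i0 i2'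
      exact a1
    have h3 := hS2 u hu hu1
    rw [e2] at h3
    rw [e1]
    have h4 : 0 ≤ ∫ x, ∑ j, (fderiv ℝ (gs Θ (pst Θ ρ u)) x (e j)) ^ 2 ∂(mu ρ) :=
      integral_nonneg fun x => Finset.sum_nonneg fun j _ => sq_nonneg _
    have h5 : 1 ≤ Θ / K := by rw [le_div_iff₀ hK]; linarith
    have h6 := mul_le_mul_of_nonneg_right h5 h4
    rw [one_mul] at h6
    linarith
  -- induction
  have hind : ∀ n : ℕ, ∀ u ∈ S, ContDiff ℝ 1 u →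
      W ρ u ≤ (4 * Θ + (2 * R ^ 2 - 4 * Θ) * (1 / 2) ^ n) * ∫ x, ‖fderiv ℝ u x‖ ^ 2 ∂(mu ρ) := by
    intro n
    induction n with
    | zero =>
      intro u _ hu1
      obtain ⟨c, hc⟩ := ball_poincare hρ R hR0 hR u hu1
      have := W_le hρ hu1.continuous c
      calc W ρ u ≤ _ := this
        _ ≤ _ := hc
        _ = _ := by ring
    | succ n ih =>
      intro u hu hu1
      obtain ⟨h1, h2⟩ := hD u hu hu1
      have h1' : ContDiff ℝ 1 (gs Θ (pst Θ ρ u)) := h1.of_le (by norm_num)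
      have h3 := ih _ (hS u hu hu1) h1'
      obtain ⟨h4, h5⟩ := l2step hρ Θ hΘ0 u hu1
      have h6 : W ρ u ≤ W ρ (gs Θ (pst Θ ρ u)) +
          2 * Θ * ∫ x, ‖fderiv ℝ u x‖ ^ 2 ∂(mu ρ) := by
        unfold W
        rw [h4]
        linarith
      have hcoef : 0 ≤ 4 * Θ + (2 * R ^ 2 - 4 * Θ) * (1 / 2 : ℝ) ^ n := by
        have hp0 : (0 : ℝ) < (1 / 2) ^ n := by positivity
        have hp1 : (1 / 2 : ℝ) ^ n ≤ 1 := pow_le_one₀ (by norm_num) (by norm_num)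
        have : 4 * Θ + (2 * R ^ 2 - 4 * Θ) * (1 / 2 : ℝ) ^ n =
          4 * Θ * (1 - (1 / 2 : ℝ) ^ n) + 2 * R ^ 2 * (1 / 2 : ℝ) ^ n := by ring
        rw [this]
        have h7 : 0 ≤ 1 - (1 / 2 : ℝ) ^ n := by linarith
        positivity
      have h8 : ∫ x, ‖fderiv ℝ (gs Θ (pst Θ ρ u)) x‖ ^ 2 ∂(mu ρ) ≤
          1 / 2 * ∫ x, ‖fderiv ℝ u x‖ ^ 2 ∂(mu ρ) := by linarith
      have h9 := mul_le_mul_of_nonneg_left h8 hcoef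
      calc W ρ u ≤ _ := h6
        _ ≤ (4 * Θ + (2 * R ^ 2 - 4 * Θ) * (1 / 2) ^ n) *
            (1 / 2 * ∫ x, ‖fderiv ℝ u x‖ ^ 2 ∂(mu ρ)) +
            2 * Θ * ∫ x, ‖fderiv ℝ u x‖ ^ 2 ∂(mu ρ) := by linarith
        _ = _ := by rw [pow_succ]; ring
  refine ⟨(∫ x, u x ∂(mu ρ)) / (mu ρ).real univ, ?_⟩
  rw [W_eq hρ hu1.continuous]
  have hlim : Filter.Tendsto (fun n : ℕ => (4 * Θ + (2 * R ^ 2 - 4 * Θ) * (1 / 2 : ℝ) ^ n) *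
      ∫ x, ‖fderiv ℝ u x‖ ^ 2 ∂(mu ρ)) Filter.atTop
      (nhds ((4 * Θ + (2 * R ^ 2 - 4 * Θ) * 0) * ∫ x, ‖fderiv ℝ u x‖ ^ 2 ∂(mu ρ))) := by
    have h1 : Filter.Tendsto (fun n : ℕ => (1 / 2 : ℝ) ^ n) Filter.atTop (nhds 0) :=
      tendsto_pow_atTop_nhds_zero_of_lt_one (by norm_num) (by norm_num)
    exact ((h1.const_mul _).const_add _).mul_const _
  rw [mul_zero, add_zero] at hlim
  exact ge_of_tendsto' hlim fun n => hind n u hu hu1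

end Pool.Agent.W124.SX
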